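import Mathlib
import Pool.Agent.Y382.Gold
import Pool.Agent.TH402.AK.Trip
import Pool.Agent.Y728.AK.Final

/-!
# The abc inequality over `ℤ[(1 + √5) / 2]` for almost all triples, of all heights

The triples `a + b + c = 0` in lowest terms of integers of `ℚ(√5)`, up to units, are ordered by their
radical; there is no restriction on their heights. For every `M > 1/3` all but a power-saving
proportion of them satisfy `H(a, b, c) < rad(a, b, c) ^ M`; for `M ≤ 1/3` none does.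
-/

set_option autoImplicit false

namespace Pool.Agent.Results.MP_2a5a28_nt.AlmostAllTriples

open NumberField IsDedekindDomain

variable {K : Type} [Field K] [NumberField K]

/-- the triples in lowest terms with `a + b + c = 0` and `abc ≠ 0` -/
structure Triple (t : 𝓞 K × 𝓞 K × 𝓞 K) : Prop where
  sum : t.1 + t.2.1 + t.2.2 = 0
  ne : t.1 * t.2.1 * t.2.2 ≠ 0
  cop : Ideal.span {t.1, t.2.1, t.2.2} = (⊤ : Ideal (𝓞 K))

/-- the height `H(a, b, c)`: the product over the field embeddings `φ : K → ℂ` (two real ones when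
`K = ℚ(√5)`) of `max (|φ a|, |φ b|, |φ c|)` -/
noncomputable def height (t : 𝓞 K × 𝓞 K × 𝓞 K) : ℝ :=
  ∏ φ : K →+* ℂ, max ‖φ t.1‖ (max ‖φ t.2.1‖ ‖φ t.2.2‖)

/-- the radical: the product of the norms of the prime ideals dividing `abc` -/
noncomputable def rad (t : 𝓞 K × 𝓞 K × 𝓞 K) : ℝ :=
  ∏ᶠ (P : HeightOneSpectrum (𝓞 K)) (_ : t.1 * t.2.1 * t.2.2 ∈ P.asIdeal),
    (Ideal.absNorm P.asIdeal : ℝ)

/-- the finite set `E` is a full set of representatives, up to units, of the triples with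
`rad ≤ X`: it consists of such triples, no two members differ by a unit, and every such triple, of
whatever height, differs by a unit from a member -/
structure Reps (X : ℝ) (E : Finset (𝓞 K × 𝓞 K × 𝓞 K)) : Prop where
  mem : ∀ t ∈ E, Triple t ∧ rad t ≤ X
  ineq : ∀ t ∈ E, ∀ s ∈ E, ∀ u : (𝓞 K)ˣ, s = (u * t.1, u * t.2.1, u * t.2.2) → s = t
  full : ∀ t, Triple t → rad t ≤ X → ∃ s ∈ E, ∃ u : (𝓞 K)ˣ,
    t = (u * s.1, u * s.2.1, u * s.2.2)

/-- the members `t` of `E` with `H(t) ≥ rad(t) ^ M`, that is, violating `H(t) < rad(t) ^ M` -/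
def Exceptions (M : ℝ) (E : Finset (𝓞 K × 𝓞 K × 𝓞 K)) : Set (𝓞 K × 𝓞 K × 𝓞 K) :=
  {t | t ∈ E ∧ rad t ^ M ≤ height t}

/-- no two members of the set differ by a unit -/
def Ineq (E : Finset (𝓞 K × 𝓞 K × 𝓞 K)) : Prop :=
  ∀ t ∈ E, ∀ s ∈ E, ∀ u : (𝓞 K)ˣ, s = (u * t.1, u * t.2.1, u * t.2.2) → s = t

omit [NumberField K] in
theorem Triple.tr {t : 𝓞 K × 𝓞 K × 𝓞 K} (h : Triple t) : Pool.Agent.TH402.AK.Trip.Triple t :=
  ⟨h.sum, h.ne, h.cop⟩

open Pool.Agent.TH402.AK Pool.Agent.TH876.Loc in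
theorem rad_eq {t : 𝓞 K × 𝓞 K × 𝓞 K} (h : Triple t) : rad t = nn (sp (pt t.1 t.2.1)) :=
  Pool.Agent.TH402.AK.Trip.rad_eq h.tr

open Pool.Agent.TH402.AK Pool.Agent.TH876.Loc in
theorem hgt_eq {t : 𝓞 K × 𝓞 K × 𝓞 K} (h : Triple t) :
    Real.log (height t) = hgt (pt t.1 t.2.1) :=
  Pool.Agent.TH402.AK.Trip.hgt_eq h.tr

open Pool.Agent.TH402.AK Pool.Agent.TH876.Loc in
theorem one_le_rad {t : 𝓞 K × 𝓞 K × 𝓞 K} (h : Triple t) : 1 ≤ rad t := by
  rw [rad_eq h]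
  exact one_le_nn _

theorem height_pos {t : 𝓞 K × 𝓞 K × 𝓞 K} (h : Triple t) : 0 < height t := by
  unfold height
  refine Finset.prod_pos fun φ _ => lt_of_lt_of_le ?_ (le_max_left _ _)
  rw [norm_pos_iff]
  intro h1
  have h2 := (map_eq_zero φ).1 h1
  exact h.tr.tri.a0 (RingOfIntegers.coe_eq_zero_iff.1 h2)

open Pool.Agent.TH402.AK Pool.Agent.TH876.Loc in
theorem card_image {E : Finset (𝓞 K × 𝓞 K × 𝓞 K)} [DecidableEq K] (h : ∀ t ∈ E, Triple t)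
    (hun : Ineq E) :
    (E.image fun t => pt t.1 t.2.1).card = E.card := by
  refine Finset.card_image_of_injOn ?_
  intro t ht s hs he
  obtain ⟨u, hu⟩ := Pool.Agent.TH402.AK.Trip.inj (h t ht).tr (h s hs).tr he
  exact (hun t ht s hs u hu).symm

open Pool.Agent.TH402.AK Pool.Agent.TH876.Loc in
theorem upper (K : Type) [Field K] [NumberField K] (ε : ℝ) (hε : 0 < ε) : ∃ C : ℝ, 0 < C ∧
    ∀ X : ℝ, 1 ≤ X → ∀ E : Finset (𝓞 K × 𝓞 K × 𝓞 K), Ineq E →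
      (∀ t ∈ E, Triple t ∧ rad t ≤ X) → (E.card : ℝ) ≤ C * X ^ (2 / 3 + ε) := by
  classical
  obtain ⟨C, hC, h⟩ := Pool.Agent.Y728.mainK K ε hε
  refine ⟨C, hC, fun X hX E hun hE => ?_⟩
  have h1 := h X hX (E.image fun t => pt t.1 t.2.1) (by
    intro x hx
    rw [Finset.mem_image] at hx
    obtain ⟨t, ht, rfl⟩ := hx
    obtain ⟨h1, h2⟩ := hE t ht
    exact ⟨h1.tr.tri.pt, by rw [← rad_eq h1]; exact h2⟩)
  rwa [card_image (fun t ht => (hE t ht).1) hun] at h1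

open Pool.Agent.TH402.AK Pool.Agent.TH876.Loc in
theorem exc (K : Type) [Field K] [NumberField K] {M : ℝ} (hM : 1 / 3 < M) : ∃ ν C : ℝ, 0 < ν ∧
    0 < C ∧ ∀ X : ℝ, 1 ≤ X → ∀ E : Finset (𝓞 K × 𝓞 K × 𝓞 K), Ineq E →
      (∀ t ∈ E, Triple t ∧ rad t ≤ X ∧ rad t ^ M ≤ height t) →
      (E.card : ℝ) ≤ C * X ^ (2 / 3 - ν) := by
  classical
  obtain ⟨ν, hν, C, hC, h⟩ := Pool.Agent.Y728.AK.exc_aff K (Pool.Agent.Y728.AK.almost_allK K) ∅ hM
  refine ⟨ν, C, hν, hC, fun X hX E hun hE => ?_⟩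
  have h1 := h X hX (E.image fun t => pt t.1 t.2.1) (by
    intro x hx
    rw [Finset.mem_image] at hx
    obtain ⟨t, ht, rfl⟩ := hx
    obtain ⟨h1, h2, h3⟩ := hE t ht
    refine ⟨h1.tr.tri.pt, ?_⟩
    rw [Finset.sdiff_empty, ← rad_eq h1, ← hgt_eq h1]
    refine ⟨h2, ?_⟩
    have h4 : 0 < rad t := lt_of_lt_of_le one_pos (one_le_rad h1)
    rw [← Real.log_rpow h4]
    exact Real.log_le_log (Real.rpow_pos_of_pos h4 M) h3)
  rwa [card_image (fun t ht => (hE t ht).1) hun] at h1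

open Pool.Agent.TH402.AK Pool.Agent.TH876.Loc in
theorem small {M : ℝ} (hM : M ≤ 1 / 3) {t : 𝓞 K × 𝓞 K × 𝓞 K} (h : Triple t) :
    rad t ^ M ≤ height t := by
  have h2 := Pool.Agent.Y728.AK.rad_le_three h.tr.tri.pt
  rw [← rad_eq h, ← hgt_eq h] at h2
  have h3 : 1 ≤ rad t := one_le_rad h
  have h4 : 0 < rad t := by linarith
  rw [← Real.log_le_log_iff (Real.rpow_pos_of_pos h4 M) (height_pos h), Real.log_rpow h4]
  have h7 : M * Real.log (rad t) ≤ 1 / 3 * Real.log (rad t) :=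
    mul_le_mul_of_nonneg_right hM (Real.log_nonneg h3)
  linarith

open Pool.Agent.TH402.AK Pool.Agent.TH876.Loc in
/-- every point comes from a triple -/
theorem exists_triple (hK : Module.finrank ℚ K = 2) (h5 : ∃ s : K, s ^ 2 = 5) {x : K}
    (hx : Pt x) : ∃ t : 𝓞 K × 𝓞 K × 𝓞 K, Triple t ∧ pt t.1 t.2.1 = x := by
  obtain ⟨s, hs⟩ := h5
  obtain ⟨a, b, hb, hab, rfl⟩ := Pool.Agent.Y382.Gold.exists_coprime hK hs x
  obtain ⟨h1, h2⟩ := hx
  have hbK : (b : K) ≠ 0 := coe_ne hb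
  have ha : a ≠ 0 := by
    rintro rfl
    exact h1 (by simp)
  have hc : a + b ≠ 0 := by
    intro h
    apply h2
    have h3 : (a : K) + b = 0 := by
      rw [← map_add, h, map_zero]
    have h4 : (a : K) / b + 1 = ((a : K) + b) / b := by field_simp
    rw [h4, h3, zero_div]
  refine ⟨(a, b, -(a + b)), ⟨by ring, ?_, ?_⟩, rfl⟩
  · exact mul_ne_zero (mul_ne_zero ha hb) (neg_ne_zero.2 hc)
  · rw [Ideal.eq_top_iff_one]
    obtain ⟨u, v, huv⟩ := hab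
    rw [← huv]
    refine Ideal.add_mem _ (Ideal.mul_mem_left _ _ (Ideal.subset_span ?_))
      (Ideal.mul_mem_left _ _ (Ideal.subset_span ?_))
    · exact Set.mem_insert _ _
    · exact Set.mem_insert_of_mem _ (Set.mem_insert _ _)

open Pool.Agent.TH402.AK Pool.Agent.TH876.Loc in
theorem lower (hK : Module.finrank ℚ K = 2) (h5 : ∃ s : K, s ^ 2 = 5) (δ : ℝ) (hδ : 0 < δ) :
    ∃ X0 : ℝ, ∀ X : ℝ, X0 ≤ X → ∃ E : Finset (𝓞 K × 𝓞 K × 𝓞 K), Ineq E ∧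
      (∀ t ∈ E, Triple t ∧ rad t ≤ X) ∧ X ^ (2 / 3 - δ) ≤ (E.card : ℝ) := by
  classical
  obtain ⟨X0, hX0, h⟩ := Pool.Agent.Y812.lower_pointsK K δ hδ
  refine ⟨X0, fun X hX => ?_⟩
  obtain ⟨F, hF, hcard⟩ := h X hX
  have hex : ∀ x : K, ∃ t : 𝓞 K × 𝓞 K × 𝓞 K, Pt x → (Triple t ∧ pt t.1 t.2.1 = x) := by
    intro x
    by_cases hx : Pt x
    · obtain ⟨t, ht⟩ := exists_triple hK h5 hx
      exact ⟨t, fun _ => ht⟩
    · exact ⟨0, fun h' => absurd h' hx⟩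
  choose f hf using hex
  have hinj : Set.InjOn f (F : Set K) := by
    intro x hx y hy hxy
    rw [← (hf x (hF x hx).1).2, ← (hf y (hF y hy).1).2, hxy]
  refine ⟨F.image f, ?_, ?_, ?_⟩
  · intro t ht s hs u hu
    obtain ⟨x, hx, rfl⟩ := Finset.mem_image.1 ht
    obtain ⟨y, hy, rfl⟩ := Finset.mem_image.1 hs
    have h1 := (hf x (hF x hx).1)
    have h2 := (hf y (hF y hy).1)
    have h3 : pt (f y).1 (f y).2.1 = pt (f x).1 (f x).2.1 := by
      rw [hu]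
      unfold pt
      have hb := coe_ne h1.1.tr.tri.b0
      have hu0 : ((u : 𝓞 K) : K) ≠ 0 := coe_ne u.ne_zero
      push_cast
      field_simp
    rw [h1.2, h2.2] at h3
    rw [h3]
  · intro t ht
    obtain ⟨x, hx, rfl⟩ := Finset.mem_image.1 ht
    have h1 := (hf x (hF x hx).1)
    refine ⟨h1.1, ?_⟩
    rw [rad_eq h1.1, h1.2]
    exact (hF x hx).2
  · rw [Finset.card_image_of_injOn hinj]
    exact hcard

omit [NumberField K] in
theorem unit_symm {s t : 𝓞 K × 𝓞 K × 𝓞 K} {u : (𝓞 K)ˣ} (h : t = (u * s.1, u * s.2.1, u * s.2.2)) :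
    s = ((u⁻¹ : (𝓞 K)ˣ) * t.1, (u⁻¹ : (𝓞 K)ˣ) * t.2.1, (u⁻¹ : (𝓞 K)ˣ) * t.2.2) := by
  rw [h]
  simp only [Units.inv_mul_cancel_left]

/-- a set of inequivalent triples is not larger than a full set of representatives -/
theorem card_le_reps {X : ℝ} {E F : Finset (𝓞 K × 𝓞 K × 𝓞 K)} (hE : Reps X E) (hun : Ineq F)
    (hF : ∀ t ∈ F, Triple t ∧ rad t ≤ X) : F.card ≤ E.card := by
  classical
  have h1 : ∀ t : 𝓞 K × 𝓞 K × 𝓞 K, ∃ s : 𝓞 K × 𝓞 K × 𝓞 K, t ∈ F → (s ∈ E ∧ ∃ u : (𝓞 K)ˣ,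
      t = (u * s.1, u * s.2.1, u * s.2.2)) := by
    intro t
    by_cases ht : t ∈ F
    · obtain ⟨s, hs, u, hu⟩ := hE.full t (hF t ht).1 (hF t ht).2
      exact ⟨s, fun _ => ⟨hs, u, hu⟩⟩
    · exact ⟨0, fun h => absurd h ht⟩
  choose f hf using h1
  refine Finset.card_le_card_of_injOn f (fun t ht => (hf t ht).1) ?_
  intro t ht s hs hts
  obtain ⟨-, u, hu⟩ := hf t ht
  obtain ⟨-, v, hv⟩ := hf s hs
  rw [hts] at hu
  have h2 := unit_symm hv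
  have h3 : t = ((u * v⁻¹ : (𝓞 K)ˣ) * s.1, (u * v⁻¹ : (𝓞 K)ˣ) * s.2.1,
      (u * v⁻¹ : (𝓞 K)ˣ) * s.2.2) := by
    rw [hu, h2]
    simp only [Units.val_mul, mul_assoc]
  exact hun s hs t ht _ h3

/-- a full set of representatives exists -/
theorem exists_reps (K : Type) [Field K] [NumberField K] {X : ℝ} (hX : 1 ≤ X) :
    ∃ E : Finset (𝓞 K × 𝓞 K × 𝓞 K), Reps X E := by
  classical
  obtain ⟨C, hC, h⟩ := upper K 1 one_pos
  obtain ⟨P, hP⟩ : ∃ P : ℕ → Prop, P = fun n => ∃ E : Finset (𝓞 K × 𝓞 K × 𝓞 K), Ineq E ∧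
      (∀ t ∈ E, Triple t ∧ rad t ≤ X) ∧ E.card = n := ⟨_, rfl⟩
  obtain ⟨B, hB⟩ := exists_nat_ge (C * X ^ (2 / 3 + (1 : ℝ)))
  have hbd : ∀ n, P n → n ≤ B := by
    intro n hn
    rw [hP] at hn
    obtain ⟨E, h1, h2, rfl⟩ := hn
    exact_mod_cast (h X hX E h1 h2).trans hB
  have h0 : P 0 := by
    rw [hP]
    exact ⟨∅, fun t ht => absurd ht (Finset.notMem_empty _), fun t ht =>
      absurd ht (Finset.notMem_empty _), rfl⟩
  have hmax := Nat.findGreatest_spec (Nat.zero_le B) h0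
  obtain ⟨N, hN⟩ : ∃ N, N = Nat.findGreatest P B := ⟨_, rfl⟩
  rw [← hN] at hmax
  have hmax' : ∀ n, P n → n ≤ N := fun n hn => by
    rw [hN]
    exact Nat.le_findGreatest (hbd n hn) hn
  rw [hP] at hmax hmax'
  obtain ⟨E, h1, h2, h3⟩ := hmax
  refine ⟨E, h2, h1, ?_⟩
  intro t ht htX
  by_contra hcon
  push Not at hcon
  have htE : t ∉ E := by
    intro htE
    exact hcon t htE 1 (by simp)
  have h4 := hmax' (insert t E).card ⟨insert t E, ?_, ?_, rfl⟩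
  · rw [Finset.card_insert_of_notMem htE] at h4
    omega
  · intro a ha b hb u hu
    rw [Finset.mem_insert] at ha hb
    rcases ha with rfl | ha
    · rcases hb with rfl | hb
      · rfl
      · exact absurd (unit_symm hu) (hcon b hb _)
    · rcases hb with rfl | hb
      · exact absurd hu (hcon a ha u)
      · exact h1 a ha b hb u hu
  · intro a ha
    rw [Finset.mem_insert] at ha
    rcases ha with rfl | ha
    · exact ⟨ht, htX⟩
    · exact h2 a ha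

theorem exc_card {X M : ℝ} {E : Finset (𝓞 K × 𝓞 K × 𝓞 K)} (hE : Reps X E) :
    ∃ F : Finset (𝓞 K × 𝓞 K × 𝓞 K), Ineq F ∧
      (∀ t ∈ F, Triple t ∧ rad t ≤ X ∧ rad t ^ M ≤ height t) ∧
      (Exceptions M E).ncard = F.card := by
  classical
  refine ⟨E.filter fun t => rad t ^ M ≤ height t, ?_, ?_, ?_⟩
  · intro t ht s hs u hu
    rw [Finset.mem_filter] at ht hs
    exact hE.ineq t ht.1 s hs.1 u hu
  · intro t ht
    rw [Finset.mem_filter] at ht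
    exact ⟨(hE.mem t ht.1).1, (hE.mem t ht.1).2, ht.2⟩
  · rw [← Set.ncard_coe_finset]
    congr 1
    ext t
    unfold Exceptions
    rw [Set.mem_ofPred_eq, Finset.mem_coe, Finset.mem_filter]

/-- **The abc inequality holds for almost all triples over `ℤ[(1 + √5) / 2]`.** Let `K = ℚ(√5)`.
Up to units there are, for each `X ≥ 1`, only finitely many triples `a + b + c = 0`, `abc ≠ 0`, in
lowest terms with `rad ≤ X`, of whatever height; let `E` be a full set of representatives.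
(1) `E` has `X ^ (2 / 3 + o(1))` elements.
(2) For every `M > 1/3` at most `C X ^ (2 / 3 - ν)` of them, a proportion `≤ X ^ (-ν)` for large `X`,
violate the inequality `H < rad ^ M`.
(3) For `M ≤ 1/3` all triples do. -/
theorem result : ∀ (K : Type) [Field K] [NumberField K], Module.finrank ℚ K = 2 →
    (∃ s : K, s ^ 2 = 5) →
    (∀ X : ℝ, 1 ≤ X → ∃ E : Finset (𝓞 K × 𝓞 K × 𝓞 K), Reps X E) ∧
    (∀ ε : ℝ, 0 < ε →
      (∃ C : ℝ, ∀ X : ℝ, 1 ≤ X → ∀ E : Finset (𝓞 K × 𝓞 K × 𝓞 K), Reps X E →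
        (E.card : ℝ) ≤ C * X ^ (2 / 3 + ε)) ∧
      ∃ X0 : ℝ, ∀ X : ℝ, X0 ≤ X → ∀ E : Finset (𝓞 K × 𝓞 K × 𝓞 K), Reps X E →
        X ^ (2 / 3 - ε) ≤ (E.card : ℝ)) ∧
    (∀ M : ℝ, 1 / 3 < M →
      (∃ ν C : ℝ, 0 < ν ∧ 0 < C ∧ ∀ X : ℝ, 1 ≤ X → ∀ E : Finset (𝓞 K × 𝓞 K × 𝓞 K),
        Reps X E → ((Exceptions M E).ncard : ℝ) ≤ C * X ^ (2 / 3 - ν)) ∧
      ∃ ν X0 : ℝ, 0 < ν ∧ ∀ X : ℝ, X0 ≤ X → ∀ E : Finset (𝓞 K × 𝓞 K × 𝓞 K),
        Reps X E → ((Exceptions M E).ncard : ℝ) ≤ X ^ (-ν) * (E.card : ℝ)) ∧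
    (∀ M : ℝ, M ≤ 1 / 3 → ∀ t : 𝓞 K × 𝓞 K × 𝓞 K, Triple t → rad t ^ M ≤ height t) := by
  intro K _ _ hK h5
  have hlow : ∀ δ : ℝ, 0 < δ → ∃ X0 : ℝ, ∀ X : ℝ, X0 ≤ X →
      ∀ E : Finset (𝓞 K × 𝓞 K × 𝓞 K), Reps X E → X ^ (2 / 3 - δ) ≤ (E.card : ℝ) := by
    intro δ hδ
    obtain ⟨X0, h⟩ := lower hK h5 δ hδ
    refine ⟨X0, fun X hX E hE => ?_⟩
    obtain ⟨F, h1, h2, h3⟩ := h X hX
    refine h3.trans ?_
    exact_mod_cast card_le_reps hE h1 h2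
  have hex : ∀ M : ℝ, 1 / 3 < M → ∃ ν C : ℝ, 0 < ν ∧ 0 < C ∧ ∀ X : ℝ, 1 ≤ X →
      ∀ E : Finset (𝓞 K × 𝓞 K × 𝓞 K), Reps X E →
        ((Exceptions M E).ncard : ℝ) ≤ C * X ^ (2 / 3 - ν) := by
    intro M hM
    obtain ⟨ν, C, hν, hC, h⟩ := exc K hM
    refine ⟨ν, C, hν, hC, fun X hX E hE => ?_⟩
    obtain ⟨F, h1, h2, h3⟩ := exc_card (M := M) hE
    rw [h3]
    exact h X hX F h1 h2
  refine ⟨fun X hX => exists_reps K hX, fun ε hε => ⟨?_, hlow ε hε⟩, fun M hM => ⟨hex M hM, ?_⟩,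
    fun M hM t ht => small hM ht⟩
  · obtain ⟨C, hC, h⟩ := upper K ε hε
    exact ⟨C, fun X hX E hE => h X hX E hE.ineq hE.mem⟩
  · obtain ⟨ν, C, hν, hC, h⟩ := hex M hM
    obtain ⟨X0, hl⟩ := hlow (ν / 2) (by positivity)
    obtain ⟨Λ, hΛ⟩ : ∃ Λ, Λ = |Real.log C| * (4 / ν) := ⟨_, rfl⟩
    refine ⟨ν / 4, max (max 1 X0) (Real.exp Λ), by positivity, fun X hX E hE => ?_⟩
    have hX1 : 1 ≤ X := ((le_max_left _ _).trans (le_max_left _ _)).trans hX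
    have hXX : X0 ≤ X := ((le_max_right _ _).trans (le_max_left _ _)).trans hX
    have hXe : Real.exp Λ ≤ X := (le_max_right _ _).trans hX
    have hXp : 0 < X := by linarith
    have hC1 : C ≤ X ^ (ν / 4) := by
      have e1 : Λ ≤ Real.log X := (Real.le_log_iff_exp_le hXp).2 hXe
      rw [← Real.log_le_log_iff hC (Real.rpow_pos_of_pos hXp _), Real.log_rpow hXp]
      have e2 : ν / 4 * Λ = |Real.log C| := by rw [hΛ]; field_simp
      have e3 := mul_le_mul_of_nonneg_left e1 (by positivity : 0 ≤ ν / 4)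
      rw [e2] at e3
      exact (le_abs_self _).trans e3
    have hpos : ∀ b : ℝ, 0 < X ^ b := fun b => Real.rpow_pos_of_pos hXp b
    calc ((Exceptions M E).ncard : ℝ) ≤ C * X ^ (2 / 3 - ν) := h X hX1 E hE
      _ ≤ X ^ (ν / 4) * X ^ (2 / 3 - ν) := mul_le_mul_of_nonneg_right hC1 (hpos _).le
      _ = X ^ (-(ν / 4)) * X ^ (2 / 3 - ν / 2) := by
          rw [← Real.rpow_add hXp, ← Real.rpow_add hXp]
          congr 1
          ring
      _ ≤ _ := mul_le_mul_of_nonneg_left (hl X hXX E hE) (hpos _).le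

end Pool.Agent.Results.MP_2a5a28_nt.AlmostAllTriples
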