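import Mathlib
import Pool.Agent.Y353.QO.Ring

/-!
# The ring `ℤ[(1 + √5)/2]`: relations between perfect powers, power saving in boxes

Let `O = ℤ[α]`, `α ^ 2 = α + 1`. There is an absolute constant `δ > 0` such that for all `k`, `K` and all
`N ≥ N₀(k, K)` every box in `O ^ k` whose `2k` sides `M_j`, `M'_j` are at least `N` (and anywhere in the space)
contains at most `N ^ (-δ) ∏ M_j M'_j` tuples `A = (A₁, …, A_k)` of elements of `O` with a relation

  `a u + b v = c w ^ n`,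

where `u` and `v` are products of powers of the `A_j` and of their conjugates, with arbitrary exponents, `n` has
a prime factor at most `(log N) ^ K`, and the coefficients `a`, `b` are products of powers of elements of a set
`E` of at most `(log N) ^ (1/25)` nonzero elements of `O` (units, for instance) of norm at most
`exp (√(log N) / 3)` in absolute value, `c` is a product of powers of elements of a set `E'` of at most
`(log N) ^ (9/10)` elements of `O`. No number larger than `exp (√(log N) / 3)` may divide all the differences of the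
exponents in `u` and `v`. The coefficients are not bounded, `w` is any element of `O`, and no coprimality is needed.

Examples (for almost all `A`, with a power saving, and with such coefficients; `ε`, `ε'` any units, of which there
are infinitely many): `ε A₁ ^ p + ε' A₂ ^ q = c w ^ n` has no solution with `gcd (p, q) ≤ exp (√(log N) / 3)`;
`(A ^ g - conj A ^ g) / √5` and the trace of `A ^ g`, `g ≤ exp (√(log N) / 3)`, are not of the form `c w ^ n`.
-/

set_option autoImplicit false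

namespace Pool.Agent.Results.MP_2a5a28_nt.RelationsInBoxes

/-- the ring `ℤ[α]`, `α ^ 2 = 1 + α`; the element `⟨x, y⟩` is `x + y α` -/
abbrev O : Type := QuadraticAlgebra ℤ 1 1

/-- `a` is a product of powers of elements of `E` -/
def Gen (E : Finset O) (a : O) : Prop := ∃ f : O → ℕ, a = ∏ s ∈ E, s ^ f s

/-- The `k`-tuple `A` of elements of `O` has a relation
`a ∏ A_j ^ x_j conj (A_j) ^ x'_j + b ∏ A_j ^ y_j conj (A_j) ^ y'_j = c w ^ n` with coefficients `a`, `b` generated by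
`E` and `c` generated by `E'` and an exponent `n` with a small prime factor, where no large number `r` divides all
the differences `y_j - x_j` and `y'_j - x'_j`. -/
def Rel (k N K : ℕ) (E E' : Finset O) (A : Fin k → O) : Prop :=
  ∃ (x x' y y' : Fin k → ℕ) (n : ℕ) (a b c w : O), Gen E a ∧ Gen E b ∧ Gen E' c ∧
    (∃ p : ℕ, p.Prime ∧ p ∣ n ∧ (p : ℝ) ≤ Real.log N ^ K) ∧
    (∀ r : ℕ, (∀ j, (r : ℤ) ∣ (y j : ℤ) - x j ∧ (r : ℤ) ∣ (y' j : ℤ) - x' j) →
      (r : ℝ) ≤ Real.exp (√(Real.log N) / 3)) ∧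
    a * ∏ j, (A j ^ x j * star (A j) ^ x' j) + b * ∏ j, (A j ^ y j * star (A j) ^ y' j) = c * w ^ n

theorem norm_ne {e : O} (he : e ≠ 0) : QuadraticAlgebra.norm e ≠ 0 := by
  intro h0
  rw [QuadraticAlgebra.norm_def] at h0
  have h1 : (2 * e.re + e.im) ^ 2 = 5 * e.im ^ 2 := by linear_combination 4 * h0
  have h2 : e.im = 0 := by
    by_contra h3
    have h4 : (((2 * e.re + e.im : ℤ) : ℝ) / (e.im : ℝ)) ^ 2 = 5 := by
      have h5 : ((e.im : ℤ) : ℝ) ≠ 0 := by exact_mod_cast h3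
      rw [div_pow, div_eq_iff (pow_ne_zero 2 h5)]
      exact_mod_cast h1
    have h6 : Irrational (√((5 : ℕ) : ℝ)) := Nat.Prime.irrational_sqrt (by norm_num)
    have h7 : √((5 : ℕ) : ℝ) = |((2 * e.re + e.im : ℤ) : ℝ) / (e.im : ℝ)| := by
      rw [← Real.sqrt_sq_eq_abs, h4]
      norm_num
    apply h6
    refine ⟨|((2 * e.re + e.im : ℤ) : ℚ) / (e.im : ℚ)|, ?_⟩
    rw [h7]
    push_cast
    rfl
  rw [h2] at h1
  have h3 : e.re = 0 := by
    have h4 : 4 * e.re ^ 2 = 0 := by linear_combination h1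
    have h5 : e.re ^ 2 = 0 := by omega
    exact pow_eq_zero_iff (two_ne_zero) |>.1 h5
  exact he (QuadraticAlgebra.ext h3 h2)

theorem split (t : ℕ) (ht : t.Prime) (h6 : 6 ≤ t) (h5 : 5 ∣ t - 1) :
    ∃ φ : O →+* ZMod t, φ ⟨0, 1⟩ ≠ φ ⟨1, -1⟩ := by
  have : Fact t.Prime := ⟨ht⟩
  have : Fact (Nat.Prime 5) := ⟨by norm_num⟩
  have h1 : ((t : ℕ) : ZMod 5) = 1 := by
    obtain ⟨m, hm⟩ := h5
    have h2 : t = 5 * m + 1 := by omega
    rw [h2]
    push_cast
    have h3 : (5 : ZMod 5) = 0 := by rfl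
    rw [h3]
    ring
  have h2 : IsSquare ((t : ℕ) : ZMod 5) := by
    rw [h1]
    exact ⟨1, by ring⟩
  have h3 : IsSquare ((5 : ℕ) : ZMod t) :=
    (ZMod.exists_sq_eq_prime_iff_of_mod_four_eq_one (by norm_num) (by omega)).1 h2
  obtain ⟨u, hu⟩ := h3
  have h20 : (2 : ZMod t) ≠ 0 := by
    intro h8
    have h9 : ((2 : ℕ) : ZMod t) = 0 := by exact_mod_cast h8
    rw [ZMod.natCast_eq_zero_iff] at h9
    have := Nat.le_of_dvd (by norm_num) h9
    omega
  have h50 : (5 : ZMod t) ≠ 0 := by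
    intro h8
    have h9 : ((5 : ℕ) : ZMod t) = 0 := by exact_mod_cast h8
    rw [ZMod.natCast_eq_zero_iff] at h9
    have := Nat.le_of_dvd (by norm_num) h9
    omega
  have hu' : u * u = 5 := by rw [← hu]; norm_num
  have hr : ((1 + u) / 2) * ((1 + u) / 2) = (1 : ℤ) • (1 : ZMod t) + (1 : ℤ) • ((1 + u) / 2) := by
    rw [one_smul, one_smul]
    field_simp
    linear_combination hu'
  refine ⟨((QuadraticAlgebra.lift ⟨(1 + u) / 2, hr⟩ : O →ₐ[ℤ] ZMod t) : O →+* ZMod t), ?_⟩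
  simp only [RingHom.coe_coe, QuadraticAlgebra.lift_apply_apply]
  rw [zero_smul, one_smul, one_smul, neg_smul, one_smul, zero_add]
  intro h7
  have h8 : u = 0 := by
    field_simp at h7
    have h9 : (2 : ZMod t) * u = 0 := by linear_combination h7
    exact (mul_eq_zero.1 h9).resolve_left h20
  rw [h8] at hu'
  exact h50 (by linear_combination -hu')

theorem result : ∃ δ : ℝ, 0 < δ ∧ ∀ k K : ℕ, ∃ N₀ : ℕ, ∀ N : ℕ, N₀ ≤ N → ∀ E E' : Finset O,
    (E.card : ℝ) ≤ Real.log N ^ (1 / 25 : ℝ) → (E'.card : ℝ) ≤ Real.log N ^ (9 / 10 : ℝ) →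
    (∀ e ∈ E, e ≠ 0 ∧ |((QuadraticAlgebra.norm e : ℤ) : ℝ)| ≤ Real.exp (√(Real.log N) / 3)) →
    ∀ (s : Fin k → O) (M M' : Fin k → ℕ), (∀ j, N ≤ M j ∧ N ≤ M' j) →
    (({A : Fin k → O | (∀ j, (s j).re < (A j).re ∧ (A j).re ≤ (s j).re + M j ∧
      (s j).im < (A j).im ∧ (A j).im ≤ (s j).im + M' j) ∧ Rel k N K E E' A}.ncard : ℕ) : ℝ) ≤
      (N : ℝ) ^ (-δ) * ∏ j, ((M j : ℝ) * M' j) := by
  classical
  obtain ⟨δ, hδ, h⟩ := Pool.Agent.Y353.QO.boxes
  refine ⟨δ, hδ, fun k K => ?_⟩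
  obtain ⟨N₀, g⟩ := h O ⟨0, 1⟩ ⟨1, -1⟩ 5 6 (by norm_num) split k K
  refine ⟨N₀, fun N hN E E' hE hE' hn s M M' hM => ?_⟩
  set T : Set (Fin k → O) := {A : Fin k → O | (∀ j, (s j).re < (A j).re ∧
    (A j).re ≤ (s j).re + M j ∧ (s j).im < (A j).im ∧ (A j).im ≤ (s j).im + M' j) ∧ Rel k N K E E' A} with hT
  -- coordinates
  let F : (Fin k → O) → (Fin k → ℤ × ℤ) := fun A j => ((A j).re, (A j).im)
  have hFinj : Function.Injective F := by
    intro A A' hAA
    funext j
    have h1 := congrFun hAA j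
    simp only [F, Prod.mk.injEq] at h1
    exact QuadraticAlgebra.ext h1.1 h1.2
  have hfinT : (F '' T).Finite := by
    apply Set.Finite.subset (Set.Finite.pi' fun j =>
      (Set.finite_Ioc (s j).re ((s j).re + M j)).prod (Set.finite_Ioc (s j).im ((s j).im + M' j)))
    rintro _ ⟨A, ⟨hA, -⟩, rfl⟩ j
    obtain ⟨h1, h2, h3, h4⟩ := hA j
    exact ⟨⟨h1, h2⟩, ⟨h3, h4⟩⟩
  rw [← Set.ncard_image_of_injective T hFinj, Set.ncard_eq_toFinset_card _ hfinT]
  have hel : ∀ z : O, Pool.Agent.Y353.QO.el (⟨0, 1⟩ : O) (z.re, z.im) = z := by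
    intro z
    unfold Pool.Agent.Y353.QO.el
    ext <;> simp
  have hel' : ∀ z : O, Pool.Agent.Y353.QO.el (⟨1, -1⟩ : O) (z.re, z.im) = star z := by
    intro z
    unfold Pool.Agent.Y353.QO.el
    ext <;> simp
  apply g N hN E E' hE hE' ?_ (F s) M M' hM
  · intro A hA
    rw [Set.Finite.mem_toFinset] at hA
    obtain ⟨A, ⟨hA, x, x', y, y', n, a, b, c, w, ha, hb, hc, hp, hr, heq⟩, rfl⟩ := hA
    refine ⟨hA, x, x', y, y', n, a, b, c, w, ha, hb, hc, hp, hr, ?_⟩
    simp only [F, hel, hel']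
    exact heq
  · intro e he
    obtain ⟨h1, h2⟩ := hn e he
    refine ⟨star e, QuadraticAlgebra.norm e, ?_, norm_ne h1, ?_⟩
    · have h3 := QuadraticAlgebra.algebraMap_norm_eq_mul_star e
      rw [← h3]
      simp
    · exact h2

end Pool.Agent.Results.MP_2a5a28_nt.RelationsInBoxes
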