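import Pool.Agent.Results.MP_2a5a28_nt.ExceptionalSet
import Pool.Agent.Y854.GM.Win

/-!
# The abc conjecture over the integers of `ℚ(√5)` without exceptions in windows of heights

Let `v ≥ 1` be a sequence with exponent of convergence at most `τ` (for `v_n = n ^ a` this is `1 / a`, for `v_n = b ^ n`
it is `0`) and `θ < 1`. For all `α > 0` outside a set of Hausdorff dimension at most `(20 / 37 + τ) / (1 - θ)` and each
`κ`, for all but finitely many `n`, ALL coprime triples `a + b + c = 0`, `abc ≠ 0`, of integers of `ℚ(√5)` whose height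
`H` satisfies `|H - α v_n| ≤ v_n ^ θ` have a radical larger than `κ H`.
-/

set_option autoImplicit false

namespace Pool.Agent.Results.MP_2a5a28_nt.WindowsWithoutExceptions

open NumberField IsDedekindDomain
open ExceptionalSet (Triple height rad)

/-- the exponent of convergence of the sequence `v` is at most `τ` -/
def ExpLe (v : ℕ → ℝ) (τ : ℝ) : Prop := ∀ t : ℝ, τ < t → Summable (fun n : ℕ => (v n) ^ (-t))

variable {K : Type} [Field K] [NumberField K]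

lemma prod_unit (u : (𝓞 K)ˣ) : ∏ φ : K →+* ℂ, ‖φ (((u : 𝓞 K)) : K)‖ = 1 := by
  have h1 : ∏ φ : K →+* ℂ, ‖φ ((u : 𝓞 K) : K)‖ = ∏ σ : K →ₐ[ℚ] ℂ, ‖σ ((u : 𝓞 K) : K)‖ :=
    Fintype.prod_equiv (RingHom.equivRatAlgHom K ℂ) _ _ (fun φ => rfl)
  rw [h1, ← norm_prod, ← Algebra.norm_eq_prod_embeddings]
  have h2 : |(RingOfIntegers.norm ℚ (u : 𝓞 K) : ℚ)| = 1 := NumberField.isUnit_iff_norm.1 u.isUnit
  rw [RingOfIntegers.coe_norm] at h2
  have h3 : ‖(algebraMap ℚ ℂ) ((Algebra.norm ℚ) ((u : 𝓞 K) : K))‖ =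
      ((|(Algebra.norm ℚ) ((u : 𝓞 K) : K)| : ℚ) : ℝ) := by
    rw [eq_ratCast, Complex.norm_ratCast]
    push_cast
    rfl
  rw [h3, h2]
  norm_num

lemma height_unit (u : (𝓞 K)ˣ) (t : 𝓞 K × 𝓞 K × 𝓞 K) :
    height ((u : 𝓞 K) * t.1, (u : 𝓞 K) * t.2.1, (u : 𝓞 K) * t.2.2) = height t := by
  have h : ∀ φ : K →+* ℂ, max ‖φ (((u : 𝓞 K) * t.1 : 𝓞 K) : K)‖
      (max ‖φ (((u : 𝓞 K) * t.2.1 : 𝓞 K) : K)‖ ‖φ (((u : 𝓞 K) * t.2.2 : 𝓞 K) : K)‖) =
      ‖φ ((u : 𝓞 K) : K)‖ * max ‖φ t.1‖ (max ‖φ t.2.1‖ ‖φ t.2.2‖) := by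
    intro φ
    simp only [map_mul, norm_mul]
    rw [mul_max_of_nonneg _ _ (norm_nonneg _), mul_max_of_nonneg _ _ (norm_nonneg _)]
  unfold height
  rw [Finset.prod_congr rfl (fun φ _ => h φ), Finset.prod_mul_distrib, prod_unit, one_mul]

/-- the heights of the exceptional triples -/
def Exc (K : Type) [Field K] [NumberField K] (κ : ℝ) : Set ℝ :=
  {x : ℝ | ∃ t : 𝓞 K × 𝓞 K × 𝓞 K, Triple t ∧ height t = x ∧ rad t ≤ κ * height t}

lemma count (hd : Module.finrank ℚ K = 2) (h5 : ∃ s : K, s ^ 2 = 5) (κ ε : ℝ) (hε : 0 < ε) :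
    ∃ C : ℝ, ∀ X : ℝ, 1 ≤ X → {x | x ∈ Exc K κ ∧ x ≤ X}.Finite ∧
      ({x | x ∈ Exc K κ ∧ x ≤ X}.ncard : ℝ) ≤ C * X ^ (20 / 37 + ε) := by
  classical
  obtain ⟨C, hC⟩ := ExceptionalSet.result K hd h5 κ ε hε
  refine ⟨C, fun X hX => ?_⟩
  have key : ∀ F : Finset ℝ, (F : Set ℝ) ⊆ {x | x ∈ Exc K κ ∧ x ≤ X} → (F.card : ℝ) ≤ C * X ^ (20 / 37 + ε) := by
    intro F hF
    have hch : ∀ x : ℝ, ∃ t : 𝓞 K × 𝓞 K × 𝓞 K, x ∈ F → (Triple t ∧ height t = x ∧ rad t ≤ κ * height t) := by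
      intro x
      by_cases hx : x ∈ F
      · obtain ⟨t, ht⟩ := (hF hx).1
        exact ⟨t, fun _ => ht⟩
      · exact ⟨0, fun h => absurd h hx⟩
    choose g hg using hch
    have hinj : Set.InjOn g (F : Set ℝ) := by
      intro x hx y hy hxy
      have h1 := (hg x hx).2.1
      have h2 := (hg y hy).2.1
      rw [← h1, ← h2, hxy]
    have hcard : (F.image g).card = F.card := Finset.card_image_of_injOn hinj
    rw [← hcard]
    apply hC X hX
    · intro t ht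
      obtain ⟨x, hx, rfl⟩ := Finset.mem_image.1 ht
      obtain ⟨h1, h2, h3⟩ := hg x hx
      exact ⟨h1, by rw [h2]; exact (hF hx).2, h3⟩
    · intro t ht s hs u hu
      obtain ⟨x, hx, rfl⟩ := Finset.mem_image.1 ht
      obtain ⟨y, hy, rfl⟩ := Finset.mem_image.1 hs
      have h1 := (hg x hx).2.1
      have h2 := (hg y hy).2.1
      have h3 : y = x := by
        rw [← h1, ← h2, hu]
        exact height_unit u (g x)
      rw [h3]
  have hfin : {x | x ∈ Exc K κ ∧ x ≤ X}.Finite := by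
    by_contra hinf
    obtain ⟨F, hF, hF2⟩ := (show {x | x ∈ Exc K κ ∧ x ≤ X}.Infinite from hinf).exists_subset_card_eq
      (⌊C * X ^ (20 / 37 + ε)⌋₊ + 1)
    have h1 := key F hF
    rw [hF2] at h1
    push_cast at h1
    exact absurd h1 (not_le.2 (Nat.lt_floor_add_one _))
  refine ⟨hfin, ?_⟩
  rw [Set.ncard_eq_toFinset_card _ hfin]
  exact key _ (by simp)

/-- **Theorem.** Let `K = ℚ(√5)`, `v ≥ 1` a sequence of exponent of convergence at most `τ ≥ 0` and `θ < 1`. There is a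
set `E` of Hausdorff dimension at most `(20 / 37 + τ) / (1 - θ)` such that for each `α > 0` outside `E` and each `κ`, for
all but finitely many `n`, ALL triples `a + b + c = 0` in lowest terms with `abc ≠ 0` whose height `H` satisfies
`|H - α v_n| ≤ v_n ^ θ` have a radical larger than `κ H`. The sequences `v_n = (n + 1) ^ a` and `v_n = b ^ n` have exponent
of convergence at most `1 / a` and `0`. -/
theorem result :
    (∀ (K : Type) [Field K] [NumberField K], Module.finrank ℚ K = 2 → (∃ s : K, s ^ 2 = 5) →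
      ∀ (v : ℕ → ℝ) (τ θ : ℝ), (∀ n, 1 ≤ v n) → 0 ≤ τ → ExpLe v τ → θ < 1 →
      ∃ E : Set ℝ, dimH E ≤ ENNReal.ofReal ((20 / 37 + τ) / (1 - θ)) ∧
        ∀ α : ℝ, 0 < α → α ∉ E → ∀ κ : ℝ, ∃ n₀ : ℕ, ∀ n : ℕ, n₀ ≤ n → ∀ t : 𝓞 K × 𝓞 K × 𝓞 K, Triple t →
          |height t - α * v n| ≤ (v n) ^ θ → κ * height t < rad t) ∧
    (∀ a : ℝ, 0 < a → ExpLe (fun n : ℕ => ((n : ℝ) + 1) ^ a) (1 / a)) ∧
    (∀ b : ℝ, 1 < b → ExpLe (fun n : ℕ => b ^ n) 0) := by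
  refine ⟨fun K _ _ hd h5 v τ θ hv hτ hE hθ1 => ?_, fun κ hκ => Pool.Agent.Y854.GM.expLe_pow κ hκ,
    fun b hb => Pool.Agent.Y854.GM.expLe_geom b hb⟩
  have hall : ∀ k : ℕ, ∃ E : Set ℝ, dimH E ≤ ENNReal.ofReal ((20 / 37 + τ) / (1 - θ)) ∧
      ∀ α : ℝ, 0 < α → α ∉ E → ∃ n0 : ℕ, ∀ n : ℕ, n0 ≤ n → ∀ x ∈ Exc K (k : ℝ), (v n) ^ θ < |x - α * v n| := fun k =>
    Pool.Agent.Y854.GM.windows (Exc K (k : ℝ)) (fun x => x) hv hτ hE (s := 20 / 37) (by norm_num) hθ1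
      (fun ε hε => count hd h5 k ε hε)
  choose E hE1 hE2 using hall
  refine ⟨⋃ k, E k, ?_, fun α hα hαE κ => ?_⟩
  · rw [dimH_iUnion]
    exact iSup_le hE1
  · obtain ⟨k, hk⟩ := exists_nat_ge κ
    obtain ⟨n₀, hn⟩ := hE2 k α hα (fun h => hαE (Set.mem_iUnion.2 ⟨k, h⟩))
    refine ⟨n₀, fun n hn1 t ht hw => ?_⟩
    have hpos : 0 ≤ height t := by
      unfold height
      exact Finset.prod_nonneg (fun φ _ => (norm_nonneg _).trans (le_max_left _ _))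
    by_contra hcon
    push Not at hcon
    refine absurd (hn n hn1 (height t) ⟨t, ht, rfl, hcon.trans ?_⟩) (not_lt.2 hw)
    exact mul_le_mul_of_nonneg_right hk hpos

end Pool.Agent.Results.MP_2a5a28_nt.WindowsWithoutExceptions
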